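import Pool.Agent.Helper65.TripleWeight.Proof

namespace Pool.Agent.Results.MP_f4a429_co.QuarterBound

open Pool.Agent.Helper65.TripleWeight

/-- Negative answer: the maximum is at most `(1/4 + o(1)) n^2`. -/
theorem result :
    (∀ n : ℕ, 3 ≤ n →
      IsGreatest {m : ℕ | ∃ Ω : Finset (Fin n → Fin n), minWeight 3 Ω = (m : ℕ∞)}
        (rhoStar 3 n)) ∧
    (∀ n : ℕ, (rhoStar 3 n : ℝ) ≤ ((n : ℝ) + 3) ^ 2 / 4 + 1) ∧
    (∀ ε : ℝ, 0 < ε →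
      ∀ᶠ n : ℕ in Filter.atTop, (rhoStar 3 n : ℝ) ≤ (1 / 4 + ε) * (n : ℝ) ^ 2) ∧
    ¬ Filter.Tendsto (fun n : ℕ => (rhoStar 3 n : ℝ) / (n : ℝ) ^ 2) Filter.atTop
        (nhds (1 / 2)) := by
  refine ⟨fun n hn => ⟨Nat.sSup_mem (nonempty_of hn) (bdd n), fun m hm => le_csSup (bdd n) hm⟩,
    rho_bound_real, eventually_bound, ?_⟩
  intro hT
  have h1 : ∀ᶠ n : ℕ in Filter.atTop, (3 / 8 : ℝ) < (rhoStar 3 n : ℝ) / (n : ℝ) ^ 2 :=
    hT.eventually_const_lt (by norm_num)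
  have h2 := eventually_bound (1 / 8) (by norm_num)
  obtain ⟨n, hn1, hn2, hn3⟩ := (h1.and (h2.and (Filter.eventually_gt_atTop 0))).exists
  have hpos : (0 : ℝ) < (n : ℝ) ^ 2 := by positivity
  rw [lt_div_iff₀ hpos] at hn1
  nlinarith

end Pool.Agent.Results.MP_f4a429_co.QuarterBound
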